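import Pool.Agent.Helper22.DL.Whitney
import Pool.Agent.Helper90.DL.Transfer

namespace Pool.Agent.DL

open MeasureTheory Finset

/-- DL-13: from bilinear to linear decoupling -/
theorem dec_of_bil (k n : ℕ) (hn : 1 ≤ n) (hk : n < k) (C : ℝ) (hC : 1 ≤ C) (N : ℕ)
    (Mf : ℕ → ℝ) (hM : ∀ N', 0 ≤ Mf N')
    (h : ∀ N' : ℕ, 2 ≤ N' → N' ≤ N → Bil k n C 2 2 N' (Mf N')) :
    DecOn (tri k) (mom k) C 0 1 N
      (20 * (1 + ∑ N' ∈ range (N + 1), Mf N' ^ (1 / (tri k : ℝ)))) := by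
  have hk1 : 1 ≤ k := hn.trans hk.le
  have _ := hC
  refine dec_of_bil_of k n hk ?_ C N Mf hM h
  intro C' M A B N' hb u σ hσ t t' h1 h2 h3
  exact bil_arc hk1 hk.le hb u σ hσ t t' h1 h2 h3

end Pool.Agent.DL
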