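import Pool.Agent.Helper3.DL.Defs
import Pool.Agent.Helper13.DL.DL1
import Pool.Agent.Helper17.DL.Norms

/-!
# Module DL-13: from bilinear to linear decoupling (Whitney decomposition)
-/

namespace Pool.Agent.DL

open MeasureTheory Finset

namespace Whitney

/-- the sum of the `q` terms of the `c`-th block -/
noncomputable def G (z : ℕ → ℂ) (q c : ℕ) : ℂ := ∑ j ∈ range q, z (c * q + j)

/-- equal or neighbouring indices -/
def closeP (p : ℕ × ℕ) : Prop := p.1 ≤ p.2 + 1 ∧ p.2 ≤ p.1 + 1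

/-- indices at distance two or three with equal or neighbouring parents -/
def farP (p : ℕ × ℕ) : Prop := (p.1 + 2 ≤ p.2 ∨ p.2 + 2 ≤ p.1) ∧ p.1 / 2 ≤ p.2 / 2 + 1 ∧
  p.2 / 2 ≤ p.1 / 2 + 1

instance : DecidablePred closeP := fun p => by unfold closeP; infer_instance
instance : DecidablePred farP := fun p => by unfold farP; infer_instance

/-- neighbouring pairs below `m` -/
def closeS (m : ℕ) : Finset (ℕ × ℕ) := (range m ×ˢ range m).filter closeP

/-- Whitney pairs below `m` -/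
def farS (m : ℕ) : Finset (ℕ × ℕ) := (range m ×ˢ range m).filter farP

theorem G_split (z : ℕ → ℂ) (q c : ℕ) : G z (q + q) c = G z q (2 * c) + G z q (2 * c + 1) := by
  unfold G
  rw [Finset.sum_range_add]
  congr 1
  · refine Finset.sum_congr rfl fun j _ => ?_
    congr 1; ring
  · refine Finset.sum_congr rfl fun j _ => ?_
    congr 1; ring

theorem sum_range_double {M : Type*} [AddCommMonoid M] (h : ℕ → M) (m : ℕ) :
    ∑ c ∈ range (m + m), h c = ∑ i ∈ range m, (h (2 * i) + h (2 * i + 1)) := by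
  induction m with
  | zero => simp
  | succ m ih =>
    rw [Finset.sum_range_succ, ← ih, show m + 1 + (m + 1) = (m + m) + 1 + 1 by ring,
      Finset.sum_range_succ, Finset.sum_range_succ, add_assoc]
    congr 2 <;> congr 1 <;> omega

theorem sum_range_block {M : Type*} [AddCommMonoid M] (g : ℕ → M) (m q : ℕ) :
    ∑ c ∈ range m, ∑ j ∈ range q, g (c * q + j) = ∑ i ∈ range (m * q), g i := by
  induction m with
  | zero => simp
  | succ m ih =>
    rw [Finset.sum_range_succ, ih, add_mul, one_mul, Finset.sum_range_add]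

/-- the sum over the neighbouring pairs, at the level of blocks of length `q` -/
noncomputable def R (z : ℕ → ℂ) (m q : ℕ) : ℂ := ∑ p ∈ closeS m, G z q p.1 * G z q p.2

theorem R_step (z : ℕ → ℂ) (m q : ℕ) :
    R z m (q + q) = R z (m + m) q + ∑ p ∈ farS (m + m), G z q p.1 * G z q p.2 := by
  unfold R closeS farS
  rw [Finset.sum_filter, Finset.sum_filter, Finset.sum_filter, ← Finset.sum_add_distrib,
    Finset.sum_product, Finset.sum_product, sum_range_double]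
  refine Finset.sum_congr rfl fun i _ => ?_
  rw [sum_range_double, sum_range_double, ← Finset.sum_add_distrib]
  refine Finset.sum_congr rfl fun i' _ => ?_
  simp only [G_split]
  by_cases h : closeP (i, i')
  · rw [if_pos h]
    have key : ∀ c c' : ℕ, c / 2 = i → c' / 2 = i' →
        ((if closeP (c, c') then G z q c * G z q c' else 0) +
          (if farP (c, c') then G z q c * G z q c' else 0)) = G z q c * G z q c' := by
      intro c c' hc hc'
      unfold closeP at h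
      simp only at h
      by_cases h1 : closeP (c, c')
      · have h2 : ¬ farP (c, c') := by unfold closeP at h1; unfold farP; simp only at *; omega
        rw [if_pos h1, if_neg h2, add_zero]
      · have h2 : farP (c, c') := by unfold closeP at h1; unfold farP; simp only at *; omega
        rw [if_neg h1, if_pos h2, zero_add]
    rw [key _ _ (by omega) (by omega), key _ _ (by omega) (by omega),
      key _ _ (by omega) (by omega), key _ _ (by omega) (by omega)]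
    ring
  · rw [if_neg h]
    have key : ∀ c c' : ℕ, c / 2 = i → c' / 2 = i' →
        ((if closeP (c, c') then G z q c * G z q c' else 0) +
          (if farP (c, c') then G z q c * G z q c' else 0)) = 0 := by
      intro c c' hc hc'
      unfold closeP at h
      simp only at h
      have h1 : ¬ closeP (c, c') := by unfold closeP; simp only; omega
      have h2 : ¬ farP (c, c') := by unfold farP; simp only; omega
      rw [if_neg h1, if_neg h2, add_zero]
    rw [key _ _ (by omega) (by omega), key _ _ (by omega) (by omega),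
      key _ _ (by omega) (by omega), key _ _ (by omega) (by omega)]
    ring

theorem enorm_R_le (z : ℕ → ℂ) (N : ℕ) : ∀ l ≤ N, ‖∑ j ∈ range (2 ^ N), z j‖ₑ ^ 2 ≤
    ‖R z (2 ^ l) (2 ^ (N - l))‖ₑ + ∑ i ∈ range l, ∑ p ∈ farS (2 ^ (i + 1)),
      ‖G z (2 ^ (N - (i + 1))) p.1‖ₑ * ‖G z (2 ^ (N - (i + 1))) p.2‖ₑ := by
  intro l
  induction l with
  | zero =>
    intro _
    have h : closeS (2 ^ 0) = {((0 : ℕ), (0 : ℕ))} := by decide
    simp only [Finset.range_zero, Finset.sum_empty, add_zero, R, h, Finset.sum_singleton,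
      Nat.sub_zero]
    rw [enorm_mul, ← pow_two]
    simp [G]
  | succ l ih =>
    intro hl
    have h1 := ih (by omega)
    have e : 2 ^ (N - l) = 2 ^ (N - (l + 1)) + 2 ^ (N - (l + 1)) := by
      rw [← two_mul, ← pow_succ']; congr 1; omega
    have e2 : (2 : ℕ) ^ (l + 1) = 2 ^ l + 2 ^ l := by rw [pow_succ]; ring
    rw [e, R_step, ← e2] at h1
    refine h1.trans ?_
    rw [Finset.sum_range_succ, add_comm (∑ i ∈ range l, _), ← add_assoc]
    gcongr
    refine (enorm_add_le _ _).trans ?_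
    gcongr
    refine (enorm_sum_le _ _).trans ?_
    exact Finset.sum_le_sum fun p _ => (enorm_mul _ _).le

/-- Whitney decomposition of a square, pointwise -/
theorem whitney (z : ℕ → ℂ) (N : ℕ) : ‖∑ j ∈ range (2 ^ N), z j‖ₑ ^ 2 ≤
    (∑ p ∈ closeS (2 ^ N), ‖z p.1‖ₑ * ‖z p.2‖ₑ) + ∑ i ∈ range N, ∑ p ∈ farS (2 ^ (i + 1)),
      ‖G z (2 ^ (N - (i + 1))) p.1‖ₑ * ‖G z (2 ^ (N - (i + 1))) p.2‖ₑ := by
  refine (enorm_R_le z N N le_rfl).trans ?_
  gcongr
  unfold R
  refine (enorm_sum_le _ _).trans ?_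
  refine Finset.sum_le_sum fun p _ => ?_
  simp [G, enorm_mul]

theorem mul_pow_le (x y : ENNReal) (s : ℕ) : (x * y) ^ s ≤ x ^ (2 * s) + y ^ (2 * s) := by
  rcases le_total x y with h | h
  · calc (x * y) ^ s ≤ (y * y) ^ s := by gcongr
      _ = y ^ (2 * s) := by rw [← pow_two, ← pow_mul]
      _ ≤ _ := le_add_self
  · calc (x * y) ^ s ≤ (x * x) ^ s := by gcongr
      _ = x ^ (2 * s) := by rw [← pow_two, ← pow_mul]
      _ ≤ _ := le_self_add

theorem mul_le_sq (x y : ENNReal) : x * y ≤ x ^ 2 + y ^ 2 := by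
  have := mul_pow_le x y 1
  simpa using this

theorem rpow_sub {s : ℕ} (hs : 1 ≤ s) (a b : ENNReal) :
    (a + b) ^ (1 / (s : ℝ)) ≤ a ^ (1 / (s : ℝ)) + b ^ (1 / (s : ℝ)) := by
  have hs' : (1 : ℝ) ≤ s := by exact_mod_cast hs
  refine ENNReal.rpow_add_le_add_rpow _ _ (by positivity) ?_
  rw [div_le_one (by positivity)]
  exact hs'

variable {k : ℕ}

theorem close_pair {s : ℕ} (hs : 1 ≤ s) (f g : (Fin k → ℝ) → ℂ) (hf : Measurable f) :
    (∫⁻ x, (‖f x‖ₑ * ‖g x‖ₑ) ^ s) ^ (1 / (s : ℝ)) ≤ NN s f + NN s g := by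
  have h1 : ∫⁻ x, (‖f x‖ₑ * ‖g x‖ₑ) ^ s ≤ (∫⁻ x, ‖f x‖ₑ ^ (2 * s)) + ∫⁻ x, ‖g x‖ₑ ^ (2 * s) := by
    rw [← lintegral_add_left (hf.enorm.pow_const _)]
    exact lintegral_mono fun x => mul_pow_le _ _ _
  unfold NN
  exact (ENNReal.rpow_le_rpow h1 (by positivity)).trans (rpow_sub hs _ _)

theorem far_pair {s a b : ℕ} (hs : 1 ≤ s) (hab : a + b = s) (f g : (Fin k → ℝ) → ℂ)
    (hf : Measurable f) (hg : Measurable g) {M : ℝ} (hM : 0 ≤ M) (S S' : ENNReal)
    (h1 : ∫⁻ x, ‖f x‖ₑ ^ (2 * a) * ‖g x‖ₑ ^ (2 * b) ≤ ENNReal.ofReal M * S ^ a * S' ^ b)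
    (h2 : ∫⁻ x, ‖g x‖ₑ ^ (2 * a) * ‖f x‖ₑ ^ (2 * b) ≤ ENNReal.ofReal M * S' ^ a * S ^ b) :
    (∫⁻ x, (‖f x‖ₑ * ‖g x‖ₑ) ^ s) ^ (1 / (s : ℝ)) ≤
      2 * ENNReal.ofReal (M ^ (1 / (s : ℝ))) * (S + S') := by
  have hs0 : (s : ℝ) ≠ 0 := by positivity
  have key : ∀ x y : ENNReal, (x * y) ^ s ≤ x ^ (2 * a) * y ^ (2 * b) + y ^ (2 * a) * x ^ (2 * b) := by
    intro x y
    have e : (x * y) ^ s = (x ^ a * y ^ b) * (y ^ a * x ^ b) := by
      rw [← hab, mul_pow, pow_add, pow_add]; ring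
    rw [e]
    refine (mul_le_sq _ _).trans (le_of_eq ?_)
    rw [mul_pow, mul_pow]
    simp only [← pow_mul]
    rw [mul_comm a 2, mul_comm b 2]
  have h3 : ∫⁻ x, (‖f x‖ₑ * ‖g x‖ₑ) ^ s ≤
      ENNReal.ofReal M * (S + S') ^ s + ENNReal.ofReal M * (S + S') ^ s := by
    calc ∫⁻ x, (‖f x‖ₑ * ‖g x‖ₑ) ^ s
        ≤ ∫⁻ x, (‖f x‖ₑ ^ (2 * a) * ‖g x‖ₑ ^ (2 * b) + ‖g x‖ₑ ^ (2 * a) * ‖f x‖ₑ ^ (2 * b)) :=
          lintegral_mono fun x => key _ _
      _ = (∫⁻ x, ‖f x‖ₑ ^ (2 * a) * ‖g x‖ₑ ^ (2 * b)) +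
          ∫⁻ x, ‖g x‖ₑ ^ (2 * a) * ‖f x‖ₑ ^ (2 * b) :=
          lintegral_add_left ((hf.enorm.pow_const _).mul (hg.enorm.pow_const _)) _
      _ ≤ ENNReal.ofReal M * S ^ a * S' ^ b + ENNReal.ofReal M * S' ^ a * S ^ b := add_le_add h1 h2
      _ ≤ _ := by
          rw [← hab, pow_add, ← mul_assoc]
          gcongr
          · exact le_self_add
          · exact le_add_self
          · exact le_add_self
          · exact le_self_add
  have h4 : (ENNReal.ofReal M * (S + S') ^ s) ^ (1 / (s : ℝ)) =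
      ENNReal.ofReal (M ^ (1 / (s : ℝ))) * (S + S') := by
    rw [ENNReal.mul_rpow_of_nonneg _ _ (by positivity),
      ENNReal.ofReal_rpow_of_nonneg hM (by positivity), ← ENNReal.rpow_natCast, ← ENNReal.rpow_mul,
      mul_one_div_cancel hs0, ENNReal.rpow_one]
  calc (∫⁻ x, (‖f x‖ₑ * ‖g x‖ₑ) ^ s) ^ (1 / (s : ℝ))
      ≤ (ENNReal.ofReal M * (S + S') ^ s + ENNReal.ofReal M * (S + S') ^ s) ^ (1 / (s : ℝ)) :=
        ENNReal.rpow_le_rpow h3 (by positivity)
    _ ≤ _ := rpow_sub hs _ _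
    _ = 2 * ENNReal.ofReal (M ^ (1 / (s : ℝ))) * (S + S') := by rw [h4]; ring

/-- counting the pairs with bounded degree -/
theorem sum_pairs_le (m q : ℕ) (r : ℕ × ℕ → Prop) [DecidablePred r]
    (h1 : ∀ c, ((range m).filter fun c' => r (c, c')).card ≤ q)
    (h2 : ∀ c', ((range m).filter fun c => r (c, c')).card ≤ q) (S : ℕ → ENNReal) :
    ∑ p ∈ (range m ×ˢ range m).filter r, (S p.1 + S p.2) ≤ 2 * q * ∑ c ∈ range m, S c := by
  rw [Finset.sum_add_distrib, Finset.sum_filter, Finset.sum_filter, Finset.sum_product,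
    Finset.sum_product_right]
  have e1 : ∑ c ∈ range m, ∑ c' ∈ range m, (if r (c, c') then S c else 0) ≤
      q * ∑ c ∈ range m, S c := by
    rw [Finset.mul_sum]
    refine Finset.sum_le_sum fun c _ => ?_
    rw [← Finset.sum_filter, Finset.sum_const, nsmul_eq_mul]
    gcongr
    exact_mod_cast h1 c
  have e2 : ∑ c' ∈ range m, ∑ c ∈ range m, (if r (c, c') then S c' else 0) ≤
      q * ∑ c ∈ range m, S c := by
    rw [Finset.mul_sum]
    refine Finset.sum_le_sum fun c _ => ?_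
    rw [← Finset.sum_filter, Finset.sum_const, nsmul_eq_mul]
    gcongr
    exact_mod_cast h2 c
  calc _ ≤ (q : ENNReal) * ∑ c ∈ range m, S c + q * ∑ c ∈ range m, S c := add_le_add e1 e2
    _ = _ := by ring

theorem card_le_of_subset_list {A : Finset ℕ} (l : List ℕ) (h : ∀ x ∈ A, x ∈ l) :
    A.card ≤ l.length := by
  calc A.card ≤ l.toFinset.card := Finset.card_le_card fun x hx => by simpa using h x hx
    _ ≤ l.length := List.toFinset_card_le l

theorem sum_close_le (m : ℕ) (S : ℕ → ENNReal) :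
    ∑ p ∈ closeS m, (S p.1 + S p.2) ≤ 6 * ∑ c ∈ range m, S c := by
  have := sum_pairs_le m 3 closeP (fun c => card_le_of_subset_list [c - 1, c, c + 1] ?_)
    (fun c => card_le_of_subset_list [c - 1, c, c + 1] ?_) S
  · refine this.trans (le_of_eq ?_)
    norm_num
  · intro x hx
    simp only [closeP, Finset.mem_filter, List.mem_cons, List.not_mem_nil, or_false] at hx ⊢
    omega
  · intro x hx
    simp only [closeP, Finset.mem_filter, List.mem_cons, List.not_mem_nil, or_false] at hx ⊢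
    omega

theorem sum_far_le (m : ℕ) (S : ℕ → ENNReal) :
    ∑ p ∈ farS m, (S p.1 + S p.2) ≤ 8 * ∑ c ∈ range m, S c := by
  have := sum_pairs_le m 4 farP (fun c => card_le_of_subset_list [c - 3, c - 2, c + 2, c + 3] ?_)
    (fun c => card_le_of_subset_list [c - 3, c - 2, c + 2, c + 3] ?_) S
  · refine this.trans (le_of_eq ?_)
    norm_num
  · intro x hx
    simp only [farP, Finset.mem_filter, List.mem_cons, List.not_mem_nil, or_false] at hx ⊢
    omega
  · intro x hx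
    simp only [farP, Finset.mem_filter, List.mem_cons, List.not_mem_nil, or_false] at hx ⊢
    omega

theorem idx_lt {N l c j : ℕ} (hl : l ≤ N) (hc : c < 2 ^ l) (hj : j < 2 ^ (N - l)) :
    c * 2 ^ (N - l) + j < 2 ^ N := by
  calc c * 2 ^ (N - l) + j < c * 2 ^ (N - l) + 2 ^ (N - l) := by omega
    _ = (c + 1) * 2 ^ (N - l) := by ring
    _ ≤ 2 ^ l * 2 ^ (N - l) := Nat.mul_le_mul_right _ hc
    _ = 2 ^ N := by rw [← pow_add]; congr 1; omega

theorem tri_pos {k : ℕ} (hk : 1 ≤ k) : 1 ≤ tri k := by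
  unfold tri
  have : 2 ≤ k * (k + 1) := by nlinarith
  omega

theorem tri_mono {n k : ℕ} (h : n ≤ k) : tri n ≤ tri k := by
  unfold tri
  refine Nat.div_le_div_right ?_
  exact Nat.mul_le_mul h (by omega)

theorem measurable_G {f : ℕ → (Fin k → ℝ) → ℂ} {N : ℕ} (hf : ∀ j < 2 ^ N, Continuous (f j))
    {l c : ℕ} (hl : l ≤ N) (hc : c < 2 ^ l) :
    Measurable (fun x => G (fun j => f j x) (2 ^ (N - l)) c) := by
  unfold G
  refine Finset.measurable_sum _ fun j hj => ?_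
  exact (hf _ (idx_lt hl hc (Finset.mem_range.mp hj))).measurable

/-- the statement of `bil_arc` -/
def ArcHyp (k n : ℕ) : Prop := ∀ (C M : ℝ) (A B N : ℕ), Bil k n C A B N M → ∀ u σ : ℝ, 0 < σ →
    ∀ t t' : ℝ, t + (1 / 2) ^ A ≤ t' + 1 → t' + (1 / 2) ^ B ≤ t + 1 →
    (t' + (1 / 2) ^ B + 1 / 4 ≤ t ∨ t + (1 / 2) ^ A + 1 / 4 ≤ t') →
    BilIneq (tri k) (tri n) (tri k - tri n)
      (fun j => cell (mom k) (u + σ * (t + j * (1 / 2) ^ N)) (σ * (1 / 2) ^ N) C)
      (fun j => cell (mom k) (u + σ * (t' + j * (1 / 2) ^ N)) (σ * (1 / 2) ^ N) C)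
      (2 ^ (N - A)) (2 ^ (N - B)) M

/-- the bilinear inequality for a Whitney pair -/
theorem bil_pair {k n : ℕ} (harc : ArcHyp k n) {C : ℝ} {N l : ℕ} (hlN : l ≤ N)
    {M : ℝ} (h : Bil k n C 2 2 (N + 2 - l) M) (f : ℕ → (Fin k → ℝ) → ℂ)
    (hf : ∀ j : ℕ, j < 2 ^ N → Spec (cell (mom k) (0 + j * (1 / 2 ^ N)) (1 / 2 ^ N) C) (f j))
    {p : ℕ × ℕ} (hp : p ∈ farS (2 ^ l)) :
    ∫⁻ x, ‖G (fun j => f j x) (2 ^ (N - l)) p.1‖ₑ ^ (2 * tri n) *
      ‖G (fun j => f j x) (2 ^ (N - l)) p.2‖ₑ ^ (2 * (tri k - tri n)) ≤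
      ENNReal.ofReal M * (∑ j ∈ range (2 ^ (N - l)), NN (tri k) (f (p.1 * 2 ^ (N - l) + j))) ^ tri n *
        (∑ j ∈ range (2 ^ (N - l)), NN (tri k) (f (p.2 * 2 ^ (N - l) + j))) ^ (tri k - tri n) := by
  obtain ⟨c, c'⟩ := p
  simp only [farS, farP, Finset.mem_filter, Finset.mem_product, Finset.mem_range] at hp
  obtain ⟨⟨hc, hc'⟩, hfar, hp1, hp2⟩ := hp
  have d1 : c ≤ c' + 3 := by omega
  have d2 : c' ≤ c + 3 := by omega
  have r1 : (c : ℝ) ≤ c' + 3 := by exact_mod_cast d1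
  have r2 : (c' : ℝ) ≤ c + 3 := by exact_mod_cast d2
  have h3 : (c' : ℝ) / 4 + (1 / 2) ^ 2 + 1 / 4 ≤ (c : ℝ) / 4 ∨
      (c : ℝ) / 4 + (1 / 2) ^ 2 + 1 / 4 ≤ (c' : ℝ) / 4 := by
    rcases hfar with h | h
    · right
      have : (c : ℝ) + 2 ≤ c' := by exact_mod_cast h
      linarith
    · left
      have : (c' : ℝ) + 2 ≤ c := by exact_mod_cast h
      linarith
  have hb := harc C M 2 2 _ h 0 (4 * (1 / 2) ^ l) (by positivity)
    ((c : ℝ) / 4) ((c' : ℝ) / 4) (by linarith) (by linarith) h3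
  have e1 : N + 2 - l - 2 = N - l := by omega
  rw [e1] at hb
  have hsig : (4 : ℝ) * (1 / 2) ^ l * (1 / 2) ^ (N + 2 - l) = 1 / 2 ^ N := by
    have : N + 2 - l + l = N + 2 := by omega
    rw [mul_assoc, ← pow_add, add_comm l, this, pow_add, one_div_pow, one_div_pow]
    norm_num
    ring
  have hq : (2 : ℝ) ^ (N - l) * (1 / 2) ^ N = (1 / 2) ^ l := by
    have : N = (N - l) + l := by omega
    conv_lhs => rw [this]
    rw [pow_add, Nat.add_sub_cancel, ← mul_assoc, ← mul_pow]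
    norm_num
  have hcell : ∀ (d j : ℕ), 0 + 4 * (1 / 2 : ℝ) ^ l * ((d : ℝ) / 4 + j * (1 / 2) ^ (N + 2 - l)) =
      0 + ((d * 2 ^ (N - l) + j : ℕ) : ℝ) * (1 / 2 ^ N) := by
    intro d j
    have e : 4 * (1 / 2 : ℝ) ^ l * ((d : ℝ) / 4 + j * (1 / 2) ^ (N + 2 - l)) =
      d * (1 / 2) ^ l + j * (4 * (1 / 2) ^ l * (1 / 2) ^ (N + 2 - l)) := by ring
    rw [e, hsig, ← hq]
    push_cast
    rw [one_div_pow]
    ring
  refine hb (fun j => f (c * 2 ^ (N - l) + j)) (fun j => f (c' * 2 ^ (N - l) + j)) ?_ ?_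
  · intro j hj
    show Spec (cell (mom k) _ _ C) _
    rw [hsig, hcell]
    exact hf _ (idx_lt hlN hc hj)
  · intro j hj
    show Spec (cell (mom k) _ _ C) _
    rw [hsig, hcell]
    exact hf _ (idx_lt hlN hc' hj)

/-- the constants of the levels sum up to at most the sum of all constants -/
theorem sum_levels (g : ℕ → ENNReal) (N : ℕ) :
    ∑ i ∈ range N, (if i = 0 then 0 else g (N + 1 - i)) ≤ ∑ j ∈ range (N + 1), g j := by
  cases N with
  | zero => simp
  | succ n =>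
    rw [Finset.sum_range_succ', if_pos rfl, add_zero]
    have e : ∑ i ∈ range n, (if i + 1 = 0 then 0 else g (n + 1 + 1 - (i + 1))) =
        ∑ i ∈ range n, (fun j => g (j + 2)) (n - 1 - i) := by
      refine Finset.sum_congr rfl fun i hi => ?_
      rw [Finset.mem_range] at hi
      rw [if_neg (by omega)]
      show g _ = g _
      congr 1; omega
    have e2 : ∑ i ∈ range n, (fun j => g (j + 2)) (n - 1 - i) = ∑ j ∈ range n, g (j + 2) :=
      Finset.sum_range_reflect (fun j => g (j + 2)) n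
    rw [e, e2, Finset.sum_range_succ' _ (n + 1), Finset.sum_range_succ' _ n]
    rw [add_assoc]
    exact le_self_add

/-- the `L^s` norm of one level -/
theorem level_le {n : ℕ} (harc : ArcHyp k n) (hk : n < k) {C : ℝ} {N : ℕ}
    (Mf : ℕ → ℝ) (hM : ∀ N', 0 ≤ Mf N')
    (h : ∀ N' : ℕ, 2 ≤ N' → N' ≤ N → Bil k n C 2 2 N' (Mf N')) (f : ℕ → (Fin k → ℝ) → ℂ)
    (hf : ∀ j : ℕ, j < 2 ^ N → Spec (cell (mom k) (0 + j * (1 / 2 ^ N)) (1 / 2 ^ N) C) (f j))
    (i : ℕ) (hi : i < N) :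
    (∫⁻ x, (∑ p ∈ farS (2 ^ (i + 1)), ‖G (fun j => f j x) (2 ^ (N - (i + 1))) p.1‖ₑ *
      ‖G (fun j => f j x) (2 ^ (N - (i + 1))) p.2‖ₑ) ^ tri k) ^ (1 / (tri k : ℝ)) ≤
      16 * (if i = 0 then 0 else ENNReal.ofReal (Mf (N + 1 - i) ^ (1 / (tri k : ℝ)))) *
        ∑ j ∈ range (2 ^ N), NN (tri k) (f j) := by
  have hs : 1 ≤ tri k := tri_pos (by omega)
  have hs0 : (tri k : ℝ) ≠ 0 := by positivity
  have hcont : ∀ j < 2 ^ N, Continuous (f j) := fun j hj => (hf j hj).continuous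
  rcases Nat.eq_zero_or_pos i with rfl | hi0
  · have he : farS (2 ^ (0 + 1)) = ∅ := by decide
    rw [he]
    simp only [Finset.sum_empty]
    rw [zero_pow (by omega), lintegral_zero, ENNReal.zero_rpow_of_pos (by positivity)]
    exact zero_le
  rw [if_neg (by omega)]
  set S : ℕ → ENNReal := fun c =>
    ∑ j ∈ range (2 ^ (N - (i + 1))), NN (tri k) (f (c * 2 ^ (N - (i + 1)) + j)) with hS
  have hmeas : ∀ c < 2 ^ (i + 1), Measurable
      (fun x => G (fun j => f j x) (2 ^ (N - (i + 1))) c) := fun c hc =>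
    measurable_G hcont (by omega) hc
  have h1 := Ls_sum_le (volume : Measure (Fin k → ℝ)) hs (farS (2 ^ (i + 1)))
    (fun p x => ‖G (fun j => f j x) (2 ^ (N - (i + 1))) p.1‖ₑ *
      ‖G (fun j => f j x) (2 ^ (N - (i + 1))) p.2‖ₑ) (by
        intro p hp
        simp only [farS, Finset.mem_filter, Finset.mem_product, Finset.mem_range] at hp
        exact (hmeas _ hp.1.1).enorm.mul (hmeas _ hp.1.2).enorm)
  refine h1.trans ?_
  have hN : N + 1 - i = N + 2 - (i + 1) := by omega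
  have h2 : ∀ p ∈ farS (2 ^ (i + 1)),
      (∫⁻ x, (‖G (fun j => f j x) (2 ^ (N - (i + 1))) p.1‖ₑ *
      ‖G (fun j => f j x) (2 ^ (N - (i + 1))) p.2‖ₑ) ^ tri k) ^ (1 / (tri k : ℝ)) ≤
      2 * ENNReal.ofReal (Mf (N + 1 - i) ^ (1 / (tri k : ℝ))) * (S p.1 + S p.2) := by
    intro p hp
    have hp' : (p.2, p.1) ∈ farS (2 ^ (i + 1)) := by
      simp only [farS, farP, Finset.mem_filter, Finset.mem_product, Finset.mem_range] at hp ⊢
      omega
    have hb : Bil k n C 2 2 (N + 2 - (i + 1)) (Mf (N + 1 - i)) := by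
      rw [← hN]; exact h _ (by omega) (by omega)
    have q1 := bil_pair harc (by omega) hb f hf hp
    have q2 := bil_pair harc (by omega) hb f hf hp'
    simp only [farS, Finset.mem_filter, Finset.mem_product, Finset.mem_range] at hp
    exact far_pair hs (Nat.add_sub_of_le (tri_mono hk.le)) _ _ (hmeas _ hp.1.1) (hmeas _ hp.1.2)
      (hM _) (S p.1) (S p.2) q1 q2
  refine (Finset.sum_le_sum h2).trans ?_
  rw [← Finset.mul_sum]
  have h3 := sum_far_le (2 ^ (i + 1)) S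
  have h4 : ∑ c ∈ range (2 ^ (i + 1)), S c = ∑ j ∈ range (2 ^ N), NN (tri k) (f j) := by
    have e5 := sum_range_block (fun j => NN (tri k) (f j)) (2 ^ (i + 1)) (2 ^ (N - (i + 1)))
    rw [← pow_add, show i + 1 + (N - (i + 1)) = N by omega] at e5
    exact e5
  rw [h4] at h3
  calc _ ≤ 2 * ENNReal.ofReal (Mf (N + 1 - i) ^ (1 / (tri k : ℝ))) *
        (8 * ∑ j ∈ range (2 ^ N), NN (tri k) (f j)) := by gcongr
    _ = _ := by ring

theorem close_le {s : ℕ} (hs : 1 ≤ s) {N : ℕ} (f : ℕ → (Fin k → ℝ) → ℂ)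
    (hf : ∀ j < 2 ^ N, Continuous (f j)) :
    (∫⁻ x, (∑ p ∈ closeS (2 ^ N), ‖f p.1 x‖ₑ * ‖f p.2 x‖ₑ) ^ s) ^ (1 / (s : ℝ)) ≤
      6 * ∑ j ∈ range (2 ^ N), NN s (f j) := by
  have h1 := Ls_sum_le (volume : Measure (Fin k → ℝ)) hs (closeS (2 ^ N))
    (fun p x => ‖f p.1 x‖ₑ * ‖f p.2 x‖ₑ) (by
        intro p hp
        simp only [closeS, Finset.mem_filter, Finset.mem_product, Finset.mem_range] at hp
        exact (hf _ hp.1.1).measurable.enorm.mul (hf _ hp.1.2).measurable.enorm)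
  refine h1.trans ?_
  refine le_trans (Finset.sum_le_sum fun p hp => ?_) (sum_close_le (2 ^ N) (fun j => NN s (f j)))
  simp only [closeS, Finset.mem_filter, Finset.mem_product, Finset.mem_range] at hp
  exact close_pair hs _ _ (hf _ hp.1.1).measurable

end Whitney

open Whitney in
/-- DL-13 with `bil_arc` as a hypothesis -/
theorem dec_of_bil_of (k n : ℕ) (hk : n < k) (harc : ArcHyp k n) (C : ℝ) (N : ℕ)
    (Mf : ℕ → ℝ) (hM : ∀ N', 0 ≤ Mf N')
    (h : ∀ N' : ℕ, 2 ≤ N' → N' ≤ N → Bil k n C 2 2 N' (Mf N')) :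
    DecOn (tri k) (mom k) C 0 1 N
      (20 * (1 + ∑ N' ∈ range (N + 1), Mf N' ^ (1 / (tri k : ℝ)))) := by
  intro f hf
  have hs : 1 ≤ tri k := tri_pos (by omega)
  have hs0 : (tri k : ℝ) ≠ 0 := by positivity
  have hcont : ∀ j < 2 ^ N, Continuous (f j) := fun j hj => (hf j hj).continuous
  set T₀ := ∑ j ∈ range (2 ^ N), NN (tri k) (f j) with hT₀
  -- the levels
  set H : ℕ → (Fin k → ℝ) → ENNReal := fun i x =>
    match i with
    | 0 => ∑ p ∈ closeS (2 ^ N), ‖f p.1 x‖ₑ * ‖f p.2 x‖ₑ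
    | i + 1 => ∑ p ∈ farS (2 ^ (i + 1)), ‖G (fun j => f j x) (2 ^ (N - (i + 1))) p.1‖ₑ *
      ‖G (fun j => f j x) (2 ^ (N - (i + 1))) p.2‖ₑ with hH
  have hHm : ∀ i ∈ range (N + 1), Measurable (H i) := by
    intro i hi
    rw [Finset.mem_range] at hi
    cases i with
    | zero =>
      refine Finset.measurable_sum _ fun p hp => ?_
      simp only [closeS, Finset.mem_filter, Finset.mem_product, Finset.mem_range] at hp
      exact (hcont _ hp.1.1).measurable.enorm.mul (hcont _ hp.1.2).measurable.enorm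
    | succ i =>
      refine Finset.measurable_sum _ fun p hp => ?_
      simp only [farS, Finset.mem_filter, Finset.mem_product, Finset.mem_range] at hp
      exact (measurable_G hcont (by omega) hp.1.1).enorm.mul
        (measurable_G hcont (by omega) hp.1.2).enorm
  have hpt : ∀ x, ‖∑ j ∈ range (2 ^ N), f j x‖ₑ ^ 2 ≤ ∑ i ∈ range (N + 1), H i x := by
    intro x
    rw [Finset.sum_range_succ', add_comm]
    exact whitney (fun j => f j x) N
  have h1 : NN (tri k) (fun x => ∑ j ∈ range (2 ^ N), f j x) ≤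
      ∑ i ∈ range (N + 1), (∫⁻ x, H i x ^ tri k) ^ (1 / (tri k : ℝ)) := by
    refine le_trans ?_ (Ls_sum_le (volume : Measure (Fin k → ℝ)) hs (range (N + 1)) H hHm)
    unfold NN
    refine ENNReal.rpow_le_rpow (lintegral_mono fun x => ?_) (by positivity)
    rw [pow_mul]
    exact pow_le_pow_left' (hpt x) _
  refine h1.trans ?_
  rw [Finset.sum_range_succ']
  have h2 : (∫⁻ x, H 0 x ^ tri k) ^ (1 / (tri k : ℝ)) ≤ 6 * T₀ := close_le hs f hcont
  have h3 : ∀ i ∈ range N, (∫⁻ x, H (i + 1) x ^ tri k) ^ (1 / (tri k : ℝ)) ≤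
      16 * (if i = 0 then 0 else ENNReal.ofReal (Mf (N + 1 - i) ^ (1 / (tri k : ℝ)))) * T₀ :=
    fun i hi => level_le harc hk Mf hM h f hf i (Finset.mem_range.mp hi)
  have h4 := sum_levels (fun j => ENNReal.ofReal (Mf j ^ (1 / (tri k : ℝ)))) N
  have h5 : ENNReal.ofReal (20 * (1 + ∑ N' ∈ range (N + 1), Mf N' ^ (1 / (tri k : ℝ)))) =
      20 * (1 + ∑ j ∈ range (N + 1), ENNReal.ofReal (Mf j ^ (1 / (tri k : ℝ)))) := by
    rw [ENNReal.ofReal_mul (by norm_num), ENNReal.ofReal_add (by norm_num)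
      (Finset.sum_nonneg fun i _ => Real.rpow_nonneg (hM i) _),
      ENNReal.ofReal_sum_of_nonneg fun i _ => Real.rpow_nonneg (hM i) _]
    norm_num
  rw [h5]
  calc _ ≤ (∑ i ∈ range N, 16 * (if i = 0 then 0 else
          ENNReal.ofReal (Mf (N + 1 - i) ^ (1 / (tri k : ℝ)))) * T₀) + 6 * T₀ :=
        add_le_add (Finset.sum_le_sum h3) h2
    _ = 16 * (∑ i ∈ range N, (if i = 0 then 0 else
          ENNReal.ofReal (Mf (N + 1 - i) ^ (1 / (tri k : ℝ))))) * T₀ + 6 * T₀ := by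
        rw [← Finset.sum_mul, ← Finset.mul_sum]
    _ ≤ 16 * (∑ j ∈ range (N + 1), ENNReal.ofReal (Mf j ^ (1 / (tri k : ℝ)))) * T₀ + 6 * T₀ := by
        gcongr
    _ ≤ 20 * (∑ j ∈ range (N + 1), ENNReal.ofReal (Mf j ^ (1 / (tri k : ℝ)))) * T₀ + 20 * T₀ := by
        gcongr <;> norm_num
    _ = _ := by ring

end Pool.Agent.DL
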